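import Pool.Agent.W973.SRR.Defs

/-!
# Project SRR, part MATB: test for matchings
-/

set_option autoImplicit false

namespace Pool.Agent.W608.SRR

open Pool.Agent.W973.SRR

theorem h2 (M : List (ℕ × ℕ)) (hne : ∀ p ∈ M, p.1 ≠ p.2) :
    (∀ p ∈ M, ∀ q ∈ M, p = q ∨ ((p.1 = q.2 ∧ p.2 = q.1) ∨
      (p.1 ≠ q.1 ∧ p.1 ≠ q.2 ∧ p.2 ≠ q.1 ∧ p.2 ≠ q.2))) ↔
    ∀ a b c, Matched M a b → Matched M a c → b = c := by
  constructor
  · intro H a b c hb hc
    rcases hb with hb | hb <;> rcases hc with hc | hc <;>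
    · have h1 := hne _ hb
      have h2 := hne _ hc
      have h3 := H _ hb _ hc
      simp only [Prod.mk.injEq] at h1 h2 h3
      omega
  · intro H p hp q hq
    obtain ⟨x, y⟩ := p
    obtain ⟨u, v⟩ := q
    simp only [Prod.mk.injEq]
    by_cases h1 : x = u
    · subst h1
      have := H x y v (Or.inl hp) (Or.inl hq)
      exact Or.inl ⟨rfl, this⟩
    by_cases h2 : x = v
    · subst h2
      have := H x y u (Or.inl hp) (Or.inr hq)
      exact Or.inr (Or.inl ⟨rfl, this⟩)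
    by_cases h3 : y = u
    · subst h3
      have := H y x v (Or.inr hp) (Or.inl hq)
      exact Or.inr (Or.inl ⟨this, rfl⟩)
    by_cases h4 : y = v
    · subst h4
      have := H y x u (Or.inr hp) (Or.inr hq)
      exact Or.inl ⟨this, rfl⟩
    exact Or.inr (Or.inr ⟨h1, h2, h3, h4⟩)

theorem matb : S_MATB := by
  intro n M
  unfold matB IsMatching
  rw [Bool.and_eq_true]
  have h1 : (M.all fun p => decide (p.1 < n) && decide (p.2 < n) && decide (p.1 ≠ p.2)) = true ↔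
      ∀ p ∈ M, p.1 < n ∧ p.2 < n ∧ p.1 ≠ p.2 := by
    rw [List.all_eq_true]
    refine forall₂_congr fun p _ => ?_
    simp only [Bool.and_eq_true, decide_eq_true_eq, and_assoc]
  have h3 : (M.all fun p => M.all fun q => decide (p = q) ||
      (decide (p.1 = q.2 ∧ p.2 = q.1) ||
        (decide (p.1 ≠ q.1) && decide (p.1 ≠ q.2) && decide (p.2 ≠ q.1) && decide (p.2 ≠ q.2))))
        = true ↔ (∀ p ∈ M, ∀ q ∈ M, p = q ∨ ((p.1 = q.2 ∧ p.2 = q.1) ∨
      (p.1 ≠ q.1 ∧ p.1 ≠ q.2 ∧ p.2 ≠ q.1 ∧ p.2 ≠ q.2))) := by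
    rw [List.all_eq_true]
    refine forall₂_congr fun p _ => ?_
    rw [List.all_eq_true]
    refine forall₂_congr fun q _ => ?_
    simp only [Bool.and_eq_true, Bool.or_eq_true, decide_eq_true_eq, and_assoc]
  rw [h1, h3]
  exact and_congr_right fun h => h2 M fun p hp => (h p hp).2.2

end Pool.Agent.W608.SRR
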